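import Pool.Agent.H272R2.TP.G1

/-!
Cube tilings without a complete facet in common, in every dimension at least eight.
-/

set_option autoImplicit false

namespace Pool.Agent.Y505.KP

/-- `n`-dimensional space has a tiling by cubes of side two with integer centres, any two of
which do not share a complete facet. -/
def Good (n : ℕ) : Prop :=
  ∃ T : Set (Fin n → ℤ),
    (∀ z ∈ T, ∀ w ∈ T, z ≠ w →
      (∃ i, 4 ≤ |z i - w i|) ∨ ∃ i j, i ≠ j ∧ 2 ≤ |z i - w i| ∧ 1 ≤ |z j - w j|) ∧
    ∀ p : Fin n → ℝ, ∃ z ∈ T, ∀ j, |p j - (z j : ℝ)| ≤ 1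

/-- the vector attached to `q` -/
def kv {n : ℕ} (f : (Fin n → Bool) → (Fin n → Bool)) (q : Fin n → Bool) (j : Fin n) : ℤ :=
  2 * (if q j then 1 else 0) + (if f q j then 1 else 0)

/-- the periodic set of integer points -/
def KT {n : ℕ} (f : (Fin n → Bool) → (Fin n → Bool)) : Set (Fin n → ℤ) :=
  {z | ∃ q : Fin n → Bool, ∀ j, (4 : ℤ) ∣ z j - kv f q j}

/-- the covering map on classes modulo four -/
def KF {n : ℕ} (f : (Fin n → Bool) → (Fin n → Bool)) (q : (Fin n → Bool) × (Fin n → Bool)) :
    Fin n → ZMod 4 :=
  fun j => ((kv f q.1 j - (if q.2 j then 1 else 0) : ℤ) : ZMod 4)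

theorem KF_inj {n : ℕ} (f : (Fin n → Bool) → (Fin n → Bool)) (hf : H947TP.Keller f) :
    Function.Injective (KF f) := by
  rintro ⟨x, d⟩ ⟨y, e⟩ h
  have h4 : ∀ j, (4 : ℤ) ∣ (kv f x j - (if d j then 1 else 0)) -
      (kv f y j - (if e j then 1 else 0)) := by
    intro j
    have := congrFun h j
    simp only [KF] at this
    have h2 := (ZMod.intCast_eq_intCast_iff_dvd_sub _ _ 4).1 this.symm
    simpa using h2
  have hxy : x = y := by
    by_contra hne
    obtain ⟨i, h1, h2⟩ := hf.1 x y hne
    have h3 := h4 i
    unfold kv at h3
    rw [h2] at h3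
    rcases hd : d i <;> rcases he : e i <;> rcases hx : x i <;> rcases hy : y i <;>
      rcases hg : f y i <;> simp [hd, he, hx, hy, hg] at h1 h3
  subst hxy
  have : d = e := by
    funext j
    have := h4 j
    rcases hd : d j <;> rcases he : e j <;> simp [hd, he] at this ⊢
  rw [this]

theorem KF_surj {n : ℕ} (f : (Fin n → Bool) → (Fin n → Bool)) (hf : H947TP.Keller f) :
    Function.Surjective (KF f) := by
  have hb : Function.Bijective (KF f) := by
    rw [Fintype.bijective_iff_injective_and_card]
    refine ⟨KF_inj f hf, ?_⟩
    simp only [Fintype.card_prod, Fintype.card_pi, Fintype.card_bool, ZMod.card,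
      Finset.prod_const, Finset.card_univ, Fintype.card_fin]
    rw [← mul_pow]
    norm_num
  exact hb.2

theorem good_of_keller {n : ℕ} (f : (Fin n → Bool) → (Fin n → Bool)) (hf : H947TP.Keller f) :
    Good n := by
  refine ⟨KT f, ?_, ?_⟩
  · rintro z ⟨x, hx⟩ w ⟨y, hy⟩ hne
    by_cases hxy : x = y
    · subst hxy
      left
      obtain ⟨i, hi⟩ := Function.ne_iff.1 hne
      refine ⟨i, ?_⟩
      have h1 := hx i
      have h2 := hy i
      have h3 : (4 : ℤ) ∣ z i - w i := by
        have := dvd_sub h1 h2
        simpa using this
      have h4 : z i - w i ≠ 0 := sub_ne_zero.2 hi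
      rcases abs_cases (z i - w i) with hh | hh <;> omega
    · obtain ⟨i, h1, h2⟩ := hf.1 x y hxy
      right
      have hi2 : 2 ≤ |z i - w i| := by
        have a1 := hx i
        have a2 := hy i
        unfold kv at a1 a2
        rw [h2] at a1
        rcases hxi : x i <;> rcases hyi : y i <;> rcases hg : f y i <;>
          simp [hxi, hyi, hg] at h1 a1 a2 <;>
          rcases abs_cases (z i - w i) with hh | hh <;> omega
      have hj : ∃ j, j ≠ i ∧ z j ≠ w j := by
        by_contra hcc
        push Not at hcc
        have hoff : ∀ j, j ≠ i → x j = y j ∧ f x j = f y j := by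
          intro j hj
          have a1 := hx j
          have a2 := hy j
          rw [hcc j hj] at a1
          have a3 : (4 : ℤ) ∣ kv f x j - kv f y j := by
            have := dvd_sub a2 a1
            simpa using this
          unfold kv at a3
          rcases hxi : x j <;> rcases hyi : y j <;> rcases hg : f x j <;> rcases hg2 : f y j <;>
            simp [hxi, hyi, hg, hg2] at a3 ⊢
        have hy2 : y = Function.update x i (!x i) := by
          funext j
          by_cases hj : j = i
          · subst hj
            rw [Function.update_self]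
            rcases hxi : x j <;> rcases hyi : y j <;> simp [hxi, hyi] at h1 ⊢
          · rw [Function.update_of_ne hj]
            exact ((hoff j hj).1).symm
        apply hf.2 x i
        rw [← hy2]
        funext j
        by_cases hj : j = i
        · subst hj
          exact h2.symm
        · exact ((hoff j hj).2).symm
      obtain ⟨j, hji, hj⟩ := hj
      exact ⟨i, j, fun hh => hji hh.symm, hi2, Int.one_le_abs (sub_ne_zero.2 hj)⟩
  · intro p
    obtain ⟨⟨x, d⟩, hq⟩ := KF_surj f hf (fun j => ((⌊p j⌋ : ℤ) : ZMod 4))
    refine ⟨fun j => ⌊p j⌋ + (if d j then 1 else 0), ⟨x, ?_⟩, ?_⟩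
    · intro j
      have := congrFun hq j
      simp only [KF] at this
      have h2 := (ZMod.intCast_eq_intCast_iff_dvd_sub _ _ 4).1 this
      have h3 : (⌊p j⌋ + (if d j then 1 else 0)) - kv f x j =
        ⌊p j⌋ - (kv f x j - (if d j then 1 else 0)) := by ring
      rw [h3]
      simpa using h2
    · intro j
      have h1 := Int.floor_le (p j)
      have h2 := Int.lt_floor_add_one (p j)
      have h3 : (((⌊p j⌋ + (if d j then 1 else 0) : ℤ)) : ℝ) = (⌊p j⌋ : ℝ) ∨
          (((⌊p j⌋ + (if d j then 1 else 0) : ℤ)) : ℝ) = (⌊p j⌋ : ℝ) + 1 := by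
        rcases hd : d j
        · left; simp
        · right; simp
      show |p j - (((⌊p j⌋ + (if d j then 1 else 0) : ℤ)) : ℝ)| ≤ 1
      rw [abs_le]
      rcases h3 with h3 | h3 <;> rw [h3] <;> constructor <;> linarith

theorem good_eight : Good 8 := by
  obtain ⟨f, hf⟩ := H947TP.G1
  exact good_of_keller f hf

/-- the shift of the layer number `m` -/
def sh (n : ℕ) (m : ℤ) : Fin (n + 1) → ℤ := fun j => if j = 0 then m % 2 else 0

theorem good_succ (n : ℕ) (h : Good (n + 1)) : Good (n + 2) := by
  obtain ⟨T, hsep, hcov⟩ := h
  refine ⟨{z | ∃ t ∈ T, ∃ m : ℤ, z = Fin.snoc (α := fun _ => ℤ) (fun j => t j + sh n m j) (2 * m)},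
    ?_, ?_⟩
  · rintro z ⟨t, ht, m, rfl⟩ w ⟨s, hs, l, rfl⟩ hne
    by_cases hml : m = l
    · subst hml
      have hts : t ≠ s := by
        rintro rfl
        exact hne rfl
      rcases hsep t ht s hs hts with ⟨i, hi⟩ | ⟨i, j, hij, hi, hj⟩
      · left
        refine ⟨i.castSucc, ?_⟩
        simp only [Fin.snoc_castSucc]
        have : t i + sh n m i - (s i + sh n m i) = t i - s i := by ring
        rwa [this]
      · right
        refine ⟨i.castSucc, j.castSucc, fun hh => hij (Fin.castSucc_injective _ hh), ?_, ?_⟩
        · simp only [Fin.snoc_castSucc]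
          have : t i + sh n m i - (s i + sh n m i) = t i - s i := by ring
          rwa [this]
        · simp only [Fin.snoc_castSucc]
          have : t j + sh n m j - (s j + sh n m j) = t j - s j := by ring
          rwa [this]
    · have hml1 : 1 ≤ |m - l| := Int.one_le_abs (sub_ne_zero.2 hml)
      by_cases hml2 : 2 ≤ |m - l|
      · left
        refine ⟨Fin.last _, ?_⟩
        simp only [Fin.snoc_last]
        have : 2 * m - 2 * l = 2 * (m - l) := by ring
        rw [this, abs_mul]
        norm_num
        omega
      · right
        have hpar : |m % 2 - l % 2| = 1 := by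
          rcases abs_cases (m - l) with hh | hh <;>
          rcases abs_cases (m % 2 - l % 2) with h2 | h2 <;> omega
        have hd : ∃ j, t j + sh n m j ≠ s j + sh n l j := by
          by_contra hcc
          push Not at hcc
          have h0 : t 0 - s 0 = l % 2 - m % 2 := by
            have := hcc 0
            simp only [sh, if_true] at this
            linarith
          have hj : ∀ j, j ≠ 0 → t j - s j = 0 := by
            intro j hj
            have := hcc j
            simp only [sh, if_neg hj] at this
            linarith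
          have hts : t ≠ s := by
            rintro rfl
            have h3 : l % 2 - m % 2 = 0 := by linarith
            have h4 : m % 2 - l % 2 = 0 := by linarith
            rw [h4] at hpar
            simp at hpar
          have hsmall : ∀ i, |t i - s i| ≤ 1 := by
            intro i
            by_cases hi : i = 0
            · subst hi
              rw [h0, abs_sub_comm]
              exact hpar.le
            · rw [hj i hi]
              simp
          rcases hsep t ht s hs hts with ⟨i, hi⟩ | ⟨i, j, hij, hi, -⟩
          · have := hsmall i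
            omega
          · have := hsmall i
            omega
        obtain ⟨j, hj⟩ := hd
        refine ⟨Fin.last _, j.castSucc, ?_, ?_, ?_⟩
        · exact (Fin.castSucc_lt_last j).ne'
        · simp only [Fin.snoc_last]
          have : 2 * m - 2 * l = 2 * (m - l) := by ring
          rw [this, abs_mul]
          norm_num
          omega
        · simp only [Fin.snoc_castSucc]
          exact Int.one_le_abs (sub_ne_zero.2 hj)
  · intro p
    set m : ℤ := round (p (Fin.last _) / 2) with hm
    obtain ⟨t, ht, htp⟩ := hcov (fun j => p j.castSucc - (sh n m j : ℝ))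
    refine ⟨Fin.snoc (α := fun _ => ℤ) (fun j => t j + sh n m j) (2 * m), ⟨t, ht, m, rfl⟩, ?_⟩
    intro j
    refine Fin.lastCases ?_ (fun i => ?_) j
    · simp only [Fin.snoc_last]
      have h2 := abs_sub_round (p (Fin.last _) / 2)
      have h3 : p (Fin.last _) - ((2 * m : ℤ) : ℝ) = 2 * (p (Fin.last _) / 2 - (m : ℝ)) := by
        push_cast
        ring
      rw [h3, abs_mul, abs_two]
      linarith
    · simp only [Fin.snoc_castSucc]
      have h4 := htp i
      have h5 : p i.castSucc - ((t i + sh n m i : ℤ) : ℝ) =
          p i.castSucc - (sh n m i : ℝ) - (t i : ℝ) := by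
        push_cast
        ring
      rw [h5]
      exact h4

theorem good (n : ℕ) (hn : 8 ≤ n) : Good n := by
  induction n, hn using Nat.le_induction with
  | base => exact good_eight
  | succ k hk ih =>
    obtain ⟨l, rfl⟩ : ∃ l, k = l + 1 := ⟨k - 1, by omega⟩
    exact good_succ l ih

end Pool.Agent.Y505.KP
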