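import Pool.Agent.H875R3.Haj6
import Pool.Agent.Y505.KP.Til

set_option autoImplicit false

open Filter Topology Set
open scoped NNReal

namespace Pool.Agent.Y505.KP

/-- the space `ℝ^(m+2)`, to be renormed -/
def Y (m : ℕ) (_e : ℝ≥0) : Type := Fin (m + 2) → ℝ

noncomputable instance (m : ℕ) (e : ℝ≥0) : AddCommGroup (Y m e) :=
  inferInstanceAs (AddCommGroup (Fin (m + 2) → ℝ))
noncomputable instance (m : ℕ) (e : ℝ≥0) : Module ℝ (Y m e) :=
  inferInstanceAs (Module ℝ (Fin (m + 2) → ℝ))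
instance (m : ℕ) (e : ℝ≥0) : FiniteDimensional ℝ (Y m e) :=
  inferInstanceAs (FiniteDimensional ℝ (Fin (m + 2) → ℝ))

/-- index type of the functionals -/
abbrev Ind (m : ℕ) : Type := {p : Fin (m + 2) × Fin (m + 2) // p.1 ≠ p.2} × Bool

/-- the functionals `x i ± ε x j`, `i ≠ j` -/
noncomputable def Phi (m : ℕ) (e : ℝ≥0) : Y m e →ₗ[ℝ] (Ind m → ℝ) where
  toFun x q := (x : Fin (m + 2) → ℝ) q.1.1.1 +
    (if q.2 then (e : ℝ) else -(e : ℝ)) * (x : Fin (m + 2) → ℝ) q.1.1.2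
  map_add' x y := by
    funext q
    show (x q.1.1.1 + y q.1.1.1) + (if q.2 then (e : ℝ) else -(e : ℝ)) * (x q.1.1.2 + y q.1.1.2) =
      (x q.1.1.1 + (if q.2 then (e : ℝ) else -(e : ℝ)) * x q.1.1.2) +
      (y q.1.1.1 + (if q.2 then (e : ℝ) else -(e : ℝ)) * y q.1.1.2)
    ring
  map_smul' c x := by
    funext q
    show (c * x q.1.1.1) + (if q.2 then (e : ℝ) else -(e : ℝ)) * (c * x q.1.1.2) =
      c * (x q.1.1.1 + (if q.2 then (e : ℝ) else -(e : ℝ)) * x q.1.1.2)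
    ring

theorem Phi_le_iff {m : ℕ} (e : ℝ≥0) (x : Y m e) (r : ℝ) (hr : 0 ≤ r) :
    ‖Phi m e x‖ ≤ r ↔ ∀ i j : Fin (m + 2), i ≠ j → |x i| + e * |x j| ≤ r := by
  rw [pi_norm_le_iff_of_nonneg hr]
  have he : (0 : ℝ) ≤ e := e.2
  have habs : ∀ j : Fin (m + 2), |(e : ℝ) * x j| = e * |x j| := by
    intro j
    rw [abs_mul, abs_of_nonneg he]
  constructor
  · intro h i j hij
    have h1 : |x i + e * x j| ≤ r := h (⟨(i, j), hij⟩, true)
    have h2 : |x i + -(e : ℝ) * x j| ≤ r := h (⟨(i, j), hij⟩, false)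
    rw [← habs j]
    rw [neg_mul] at h2
    have h3 := abs_le.1 h1
    have h4 := abs_le.1 h2
    rcases abs_cases (x i) with h5 | h5 <;> rcases abs_cases ((e : ℝ) * x j) with h6 | h6 <;>
      rw [h5.1, h6.1] <;> linarith [h3.1, h3.2, h4.1, h4.2]
  · rintro h ⟨⟨⟨i, j⟩, hij⟩, b⟩
    have h1 := h i j hij
    rw [← habs j] at h1
    cases b
    · show |x i + -(e : ℝ) * x j| ≤ r
      rw [neg_mul, ← sub_eq_add_neg]
      exact (abs_sub _ _).trans h1
    · show |x i + e * x j| ≤ r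
      exact (abs_add_le _ _).trans h1

theorem exists_ne' {m : ℕ} (i : Fin (m + 2)) : ∃ j : Fin (m + 2), i ≠ j := by
  obtain ⟨j, hj⟩ := exists_ne i
  exact ⟨j, hj.symm⟩

theorem Phi_inj (m : ℕ) (e : ℝ≥0) : Function.Injective (Phi m e) := by
  rw [← LinearMap.ker_eq_bot, LinearMap.ker_eq_bot']
  intro x hx
  have h1 : ‖Phi m e x‖ ≤ 0 := by rw [hx, norm_zero]
  rw [Phi_le_iff e x 0 le_rfl] at h1
  funext i
  obtain ⟨j, hij⟩ := exists_ne' i
  have h2 := h1 i j hij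
  have h3 : 0 ≤ (e : ℝ) * |x j| := mul_nonneg e.2 (abs_nonneg _)
  have h4 : |x i| ≤ 0 := by linarith
  exact abs_nonpos_iff.1 h4

noncomputable instance (m : ℕ) (e : ℝ≥0) : NormedAddCommGroup (Y m e) :=
  NormedAddCommGroup.induced (Y m e) (Ind m → ℝ) (Phi m e) (Phi_inj m e)

noncomputable instance (m : ℕ) (e : ℝ≥0) : NormedSpace ℝ (Y m e) :=
  NormedSpace.induced ℝ (Y m e) (Ind m → ℝ) (Phi m e)

theorem norm_le_iff {m : ℕ} {e : ℝ≥0} (x : Y m e) (r : ℝ) (hr : 0 ≤ r) :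
    ‖x‖ ≤ r ↔ ∀ i j : Fin (m + 2), i ≠ j → |x i| + e * |x j| ≤ r :=
  Phi_le_iff e x r hr

theorem le_norm {m : ℕ} {e : ℝ≥0} (x : Y m e) (i j : Fin (m + 2)) (h : i ≠ j) :
    |x i| + e * |x j| ≤ ‖x‖ :=
  (norm_le_iff x ‖x‖ (norm_nonneg x)).1 le_rfl i j h

theorem abs_le_norm {m : ℕ} {e : ℝ≥0} (x : Y m e) (i : Fin (m + 2)) : |x i| ≤ ‖x‖ := by
  obtain ⟨j, hij⟩ := exists_ne' i
  have h2 := le_norm x i j hij
  have h3 : 0 ≤ (e : ℝ) * |x j| := mul_nonneg e.2 (abs_nonneg _)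
  linarith

theorem exists_norm_le {m : ℕ} {e : ℝ≥0} (x : Y m e) :
    ∃ i j : Fin (m + 2), i ≠ j ∧ ‖x‖ ≤ |x i| + e * |x j| := by
  by_contra hc
  push Not at hc
  let S : Finset (Fin (m + 2) × Fin (m + 2)) := Finset.univ.filter fun p => p.1 ≠ p.2
  have hS : S.Nonempty := by
    obtain ⟨j, hj⟩ := exists_ne' (0 : Fin (m + 2))
    exact ⟨(0, j), by simp [S, hj]⟩
  obtain ⟨p, hp, hmax⟩ := S.exists_max_image (fun p => |x p.1| + e * |x p.2|) hS
  have h0 : 0 ≤ |x p.1| + e * |x p.2| :=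
    add_nonneg (abs_nonneg _) (mul_nonneg e.2 (abs_nonneg _))
  have h1 : ‖x‖ ≤ |x p.1| + e * |x p.2| := by
    rw [norm_le_iff x _ h0]
    intro i j hij
    exact hmax (i, j) (by simp [S, hij])
  have h2 := hc p.1 p.2 (by simpa [S] using hp)
  linarith

/-- the packing built from the cube tiling -/
theorem upper {m : ℕ} (hg : Good (m + 2)) (e : ℝ≥0) (he2 : (e : ℝ) ≤ 2) : ∃ P : Set (Y m e),
    (∀ x ∈ P, ∀ y ∈ P, x ≠ y → 2 ≤ ‖x - y‖) ∧
    ∀ x, ∃ p ∈ P, ‖x - p‖ ≤ (2 + 2 * (e : ℝ)) / (2 + e) := by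
  obtain ⟨T, hsep, hcov⟩ := hg
  have he : (0 : ℝ) ≤ e := e.2
  set c : ℝ := 2 / (2 + e) with hc
  have hc0 : 0 < c := by positivity
  have hc1 : c * (2 + e) = 2 := by rw [hc]; field_simp
  have hc2 : c * (1 + e) = (2 + 2 * (e : ℝ)) / (2 + e) := by rw [hc]; field_simp
  refine ⟨{x | ∃ z ∈ T, ∀ j, x j = c * (z j : ℝ)}, ?_, ?_⟩
  · rintro x ⟨z, hz, hx⟩ y ⟨w, hw, hy⟩ hne
    have hzw : z ≠ w := by
      intro h
      apply hne
      funext j
      rw [hx, hy, h]
    have hd : ∀ j, (x - y : Y m e) j = c * ((z j - w j : ℤ) : ℝ) := by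
      intro j
      show x j - y j = _
      rw [hx, hy]
      push_cast
      ring
    have hda : ∀ j, |(x - y : Y m e) j| = c * |((z j - w j : ℤ) : ℝ)| := by
      intro j
      rw [hd, abs_mul, abs_of_pos hc0]
    rcases hsep z hz w hw hzw with ⟨i, hi⟩ | ⟨i, j, hij, hi, hj⟩
    · have h1 := abs_le_norm (x - y) i
      rw [hda] at h1
      have h2 : (4 : ℝ) ≤ |((z i - w i : ℤ) : ℝ)| := by exact_mod_cast hi
      have h3 : 1 / 2 ≤ c := by
        rw [hc, div_le_div_iff₀ (by norm_num) (by positivity)]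
        linarith
      nlinarith
    · have h1 := le_norm (x - y) i j hij
      rw [hda, hda] at h1
      have h2 : (2 : ℝ) ≤ |((z i - w i : ℤ) : ℝ)| := by exact_mod_cast hi
      have h3 : (1 : ℝ) ≤ |((z j - w j : ℤ) : ℝ)| := by exact_mod_cast hj
      have h4 : c * 2 ≤ c * |((z i - w i : ℤ) : ℝ)| := mul_le_mul_of_nonneg_left h2 hc0.le
      have h5 : c * 1 ≤ c * |((z j - w j : ℤ) : ℝ)| := mul_le_mul_of_nonneg_left h3 hc0.le
      have h6 : (e : ℝ) * (c * 1) ≤ e * (c * |((z j - w j : ℤ) : ℝ)|) :=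
        mul_le_mul_of_nonneg_left h5 he
      linarith
  · intro x
    obtain ⟨z, hz, hzx⟩ := hcov (fun j => x j / c)
    refine ⟨fun j => c * (z j : ℝ), ⟨z, hz, fun j => rfl⟩, ?_⟩
    rw [← hc2, norm_le_iff _ _ (by positivity)]
    have h1 : ∀ j : Fin (m + 2), |x j - c * (z j : ℝ)| ≤ c := by
      intro j
      have h2 : x j - c * (z j : ℝ) = c * (x j / c - z j) := by field_simp
      rw [h2, abs_mul, abs_of_pos hc0]
      have := mul_le_mul_of_nonneg_left (hzx j) hc0.le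
      linarith
    intro i j _
    show |x i - c * (z i : ℝ)| + e * |x j - c * (z j : ℝ)| ≤ _
    have h2 := mul_le_mul_of_nonneg_left (h1 j) he
    linarith [h1 i]

/-- the even integer lattice -/
def ev (m : ℕ) (e : ℝ≥0) : AddSubgroup (Y m e) where
  carrier := {x | ∀ j, ∃ l : ℤ, x j = 2 * (l : ℝ)}
  zero_mem' := fun j => ⟨0, by show (0 : ℝ) = _; simp⟩
  add_mem' := by
    intro a b ha hb j
    obtain ⟨m, hm⟩ := ha j
    obtain ⟨l, hl⟩ := hb j
    refine ⟨m + l, ?_⟩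
    show a j + b j = _
    rw [hm, hl]
    push_cast
    ring
  neg_mem' := by
    intro a ha j
    obtain ⟨m, hm⟩ := ha j
    refine ⟨-m, ?_⟩
    show -(a j) = _
    rw [hm]
    push_cast
    ring

theorem lattice_exists (m : ℕ) (e : ℝ≥0) : ∃ P : AddSubgroup (Y m e),
    (∀ x ∈ P, ∀ y ∈ P, x ≠ y → 2 ≤ ‖x - y‖) ∧ ∀ x, ∃ p ∈ P, ‖x - p‖ ≤ 1 + e := by
  have he : (0 : ℝ) ≤ e := e.2
  refine ⟨ev m e, ?_, ?_⟩
  · intro x hx y hy hne
    have : ∃ j : Fin (m + 2), x j ≠ y j := by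
      by_contra hc
      push Not at hc
      exact hne (funext hc)
    obtain ⟨j, hj⟩ := this
    refine le_trans ?_ (abs_le_norm (x - y) j)
    show 2 ≤ |x j - y j|
    obtain ⟨m, hm⟩ := hx j
    obtain ⟨l, hl⟩ := hy j
    rw [hm, hl] at hj ⊢
    have h1 : m ≠ l := fun h => hj (by rw [h])
    have h2 : (1 : ℤ) ≤ |m - l| := Int.one_le_abs (sub_ne_zero.2 h1)
    have h3 : (1 : ℝ) ≤ |(m : ℝ) - l| := by exact_mod_cast h2
    have h4 : 2 * (m : ℝ) - 2 * l = 2 * (m - l) := by ring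
    rw [h4, abs_mul, abs_two]
    linarith
  · intro x
    refine ⟨fun j => 2 * ((round (x j / 2) : ℤ) : ℝ), fun j => ⟨_, rfl⟩, ?_⟩
    rw [norm_le_iff _ _ (by positivity)]
    have h1 : ∀ j : Fin (m + 2), |x j - 2 * ((round (x j / 2) : ℤ) : ℝ)| ≤ 1 := by
      intro j
      have h2 := abs_sub_round (x j / 2)
      have h3 : x j - 2 * ((round (x j / 2) : ℤ) : ℝ) = 2 * (x j / 2 - round (x j / 2)) := by ring
      rw [h3, abs_mul, abs_two]
      linarith
    intro i j _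
    show |x i - 2 * ((round (x i / 2) : ℤ) : ℝ)| + e * |x j - 2 * ((round (x j / 2) : ℤ) : ℝ)| ≤ _
    have h2 := mul_le_mul_of_nonneg_left (h1 j) he
    linarith [h1 i]

/-- bounded sequences converge along an ultrafilter -/
theorem ulim (U : Ultrafilter ℕ) (f : ℕ → ℝ) (C : ℝ) (h : ∀ k, |f k| ≤ C) :
    ∃ l, Tendsto f U (𝓝 l) := by
  have hc : IsCompact (Icc (-C) C) := isCompact_Icc
  obtain ⟨l, -, hl⟩ := hc.ultrafilter_le_nhds (U.map f) (by
    rw [le_principal_iff]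
    exact Filter.Eventually.of_forall (f := (U : Filter ℕ)) (fun k => abs_le.1 (h k)))
  exact ⟨l, hl⟩

theorem lower (m : ℕ) (c : ℝ) (hc0 : 0 ≤ c) (hc1 : c < 1) :
    ∃ δ : ℝ, 0 < δ ∧ ∀ e : ℝ≥0, 0 < e → (e : ℝ) ≤ δ → ∀ (P : AddSubgroup (Y m e)) (r : ℝ),
    (∀ x ∈ P, ∀ y ∈ P, x ≠ y → 2 ≤ ‖x - y‖) → (∀ x, ∃ p ∈ P, ‖x - p‖ ≤ r) →
    1 + c * e ≤ r := by
  by_contra hcc
  push Not at hcc
  have hcc' : ∀ k : ℕ, ∃ e : ℝ≥0, 0 < e ∧ (e : ℝ) ≤ 1 / ((k : ℝ) + 1) ∧
      ∃ (P : AddSubgroup (Y m e)) (r : ℝ), (∀ x ∈ P, ∀ y ∈ P, x ≠ y → 2 ≤ ‖x - y‖) ∧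
      (∀ x, ∃ p ∈ P, ‖x - p‖ ≤ r) ∧ r < 1 + c * e := fun k => hcc _ (by positivity)
  choose e hepos hele P r hsep hden hr using hcc'
  have ep_pos : ∀ k, (0 : ℝ) < e k := fun k => by exact_mod_cast hepos k
  have ep_le_one : ∀ k, (e k : ℝ) ≤ 1 := by
    intro k
    refine (hele k).trans ?_
    rw [div_le_one (by positivity)]
    have : (0 : ℝ) ≤ k := Nat.cast_nonneg k
    linarith
  have ep_tendsto : Tendsto (fun k => (e k : ℝ)) atTop (𝓝 0) :=
    squeeze_zero (fun k => (ep_pos k).le) hele tendsto_one_div_add_atTop_nhds_zero_nat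
  set t : ℝ := (1 + c) / 2 with ht
  set η : ℝ := (1 - c) / 4 with hη
  have hη0 : 0 < η := by rw [hη]; linarith
  have ht0 : 0 < t := by rw [ht]; linarith
  have ht1 : t < 1 := by rw [ht]; linarith
  have htc : c < t - η := by rw [ht, hη]; linarith
  set U : Ultrafilter ℕ := hyperfilter ℕ with hU
  have hε : Tendsto (fun k => (e k : ℝ)) (U : Filter ℕ) (𝓝 0) :=
    ep_tendsto.mono_left Nat.hyperfilter_le_atTop
  have hsep0 : ∀ k, ∀ x ∈ P k, x ≠ 0 → 2 ≤ ‖x‖ := by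
    intro k x hx hx0
    have := hsep k x hx 0 (P k).zero_mem hx0
    rwa [sub_zero] at this
  have A : ∀ (l : (k : ℕ) → Y m (e k)) (x : Fin (m + 2) → ℝ), (∀ k, l k ∈ P k) →
      (∀ j, Tendsto (fun k => l k j) U (𝓝 (x j))) → (∀ᶠ k in (U : Filter ℕ), l k ≠ 0) →
      ∃ j, 2 ≤ |x j| := by
    intro l x hl hlx hne
    by_contra hcc
    push Not at hcc
    have h1 : ∀ᶠ k in (U : Filter ℕ), ∀ i j : Fin (m + 2), |l k i| + e k * |l k j| < 2 := by
      rw [eventually_all]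
      intro i
      rw [eventually_all]
      intro j
      have h2 : Tendsto (fun k => |l k i| + e k * |l k j|) U (𝓝 (|x i| + 0 * |x j|)) :=
        (hlx i).abs.add (hε.mul (hlx j).abs)
      exact h2.eventually (gt_mem_nhds (by rw [zero_mul, add_zero]; exact hcc i))
    obtain ⟨k, hk1, hk2⟩ := (h1.and hne).exists
    obtain ⟨i, j, -, h3⟩ := exists_norm_le (l k)
    have h4 := hsep0 k (l k) (hl k) hk2
    have h5 := hk1 i j
    linarith
  have B : ∀ (p : (k : ℕ) → Y m (e k)) (q : Fin (m + 2) → ℝ),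
      (∀ j, Tendsto (fun k => p k j) U (𝓝 (q j))) →
      ∃ (z : (k : ℕ) → Y m (e k)) (x : Fin (m + 2) → ℝ), (∀ k, z k ∈ P k) ∧
      (∀ k, ‖p k - z k‖ ≤ r k) ∧
      (∀ j, Tendsto (fun k => z k j) U (𝓝 (x j))) ∧ ∀ j, |q j - x j| ≤ 1 := by
    intro p q hpq
    choose z hz hzp using fun k => hden k (p k)
    have h1 : ∀ (j : Fin (m + 2)) (k : ℕ), |p k j - z k j| ≤ 1 + c * e k := by
      intro j k
      have h2 : |p k j - z k j| ≤ ‖p k - z k‖ := abs_le_norm (p k - z k) j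
      have h3 := hzp k
      have h4 := hr k
      linarith
    have h2 : ∀ j : Fin (m + 2), ∃ d, Tendsto (fun k => p k j - z k j) U (𝓝 d) := by
      intro j
      refine ulim U _ 2 fun k => ?_
      have h3 := h1 j k
      have h4 := ep_le_one k
      have h5 := ep_pos k
      nlinarith
    choose d hd using h2
    refine ⟨z, fun j => q j - d j, hz, hzp, fun j => ?_, fun j => ?_⟩
    · have h3 := (hpq j).sub (hd j)
      simpa using h3
    · have h3 : Tendsto (fun k => |p k j - z k j|) U (𝓝 |d j|) := (hd j).abs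
      have h4 : Tendsto (fun k => 1 + c * (e k : ℝ)) U (𝓝 (1 + c * 0)) :=
        tendsto_const_nhds.add (hε.const_mul _)
      have h5 := le_of_tendsto_of_tendsto' h3 h4 (fun k => h1 j k)
      have h6 : q j - (q j - d j) = d j := by ring
      rw [h6]
      linarith
  -- the limit lattice
  let Λ : AddSubgroup (Fin (m + 2) → ℝ) :=
    { carrier := {x | ∃ l : (k : ℕ) → Y m (e k), (∀ k, l k ∈ P k) ∧
        ∀ j, Tendsto (fun k => l k j) U (𝓝 (x j))}
      zero_mem' := ⟨fun _ => 0, fun k => (P k).zero_mem, fun j => tendsto_const_nhds⟩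
      add_mem' := by
        rintro a b ⟨l, hl, hla⟩ ⟨m, hm, hmb⟩
        exact ⟨fun k => l k + m k, fun k => (P k).add_mem (hl k) (hm k),
          fun j => (hla j).add (hmb j)⟩
      neg_mem' := by
        rintro a ⟨l, hl, hla⟩
        exact ⟨fun k => -l k, fun k => (P k).neg_mem (hl k), fun j => (hla j).neg⟩ }
  have hΛsep : ∀ x ∈ Λ, x ≠ 0 → ∃ j, 2 ≤ |x j| := by
    rintro x ⟨l, hl, hlx⟩ hx0
    apply A l x hl hlx
    have : ∃ j, x j ≠ 0 := by
      by_contra hcc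
      push Not at hcc
      exact hx0 (funext hcc)
    obtain ⟨j, hj⟩ := this
    filter_upwards [(hlx j).eventually_ne hj] with k hk h0
    apply hk
    rw [h0]
    rfl
  have hΛcov : ∀ p : Fin (m + 2) → ℝ, ∃ x ∈ Λ, ∀ j, |p j - x j| ≤ 1 := by
    intro p
    obtain ⟨z, x, hz, -, hzx, hx⟩ := B (fun _ => p) p (fun j => tendsto_const_nhds)
    exact ⟨x, ⟨z, hz, hzx⟩, hx⟩
  obtain ⟨i, lam, hlam, hlamx⟩ := H875R3.Haj.hajos_subgroup (by omega) Λ hΛsep hΛcov
  obtain ⟨j, hij⟩ := exists_ne' i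
  have hlim_i : Tendsto (fun k => lam k i) U (𝓝 2) := by
    have := hlamx i
    rwa [Pi.single_eq_same] at this
  have hlim_b : ∀ b, b ≠ i → Tendsto (fun k => lam k b) U (𝓝 0) := by
    intro b hb
    have := hlamx b
    rwa [Pi.single_eq_of_ne hb] at this
  have hne : ∀ᶠ k in (U : Filter ℕ), lam k ≠ 0 := by
    filter_upwards [hlim_i.eventually_ne (show (2 : ℝ) ≠ 0 by norm_num)] with k hk h0
    apply hk
    rw [h0]
    rfl
  have hC1 : ∀ᶠ k in (U : Filter ℕ), ∀ a b : Fin (m + 2), a ≠ i →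
      |lam k a| + e k * |lam k b| < 2 := by
    rw [eventually_all]
    intro a
    rw [eventually_all]
    intro b
    by_cases ha : a = i
    · exact Filter.Eventually.of_forall fun k h => absurd ha h
    · have h2 : Tendsto (fun k => |lam k a| + e k * |lam k b|) U
          (𝓝 (|(0 : ℝ)| + 0 * |(Pi.single i 2 : Fin (m + 2) → ℝ) b|)) :=
        (hlim_b a ha).abs.add (hε.mul (hlamx b).abs)
      have h3 := h2.eventually (gt_mem_nhds
        (show |(0 : ℝ)| + 0 * |(Pi.single i 2 : Fin (m + 2) → ℝ) b| < 2 by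
          rw [abs_zero, zero_mul, add_zero]; norm_num))
      filter_upwards [h3] with k hk _
      exact hk
  have hC2 : ∀ᶠ k in (U : Filter ℕ), ∀ b : Fin (m + 2), b ≠ i → |lam k b| < η := by
    rw [eventually_all]
    intro b
    by_cases hb : b = i
    · exact Filter.Eventually.of_forall fun k h => absurd hb h
    · have h2 : Tendsto (fun k => |lam k b|) U (𝓝 |(0 : ℝ)|) := (hlim_b b hb).abs
      have h3 := h2.eventually (gt_mem_nhds (show |(0 : ℝ)| < η by rw [abs_zero]; exact hη0))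
      filter_upwards [h3] with k hk _
      exact hk
  have hC : ∀ᶠ k in (U : Filter ℕ), 2 - e k * η ≤ |lam k i| := by
    filter_upwards [hne, hC1, hC2] with k h0 h1 h2
    have h3 := hsep0 k (lam k) (hlam k) h0
    obtain ⟨a, b, hab, h4⟩ := exists_norm_le (lam k)
    have h5 : a = i := by
      by_contra ha
      have := h1 a b ha
      linarith
    subst h5
    have h6 := h2 b (Ne.symm hab)
    have h7 := ep_pos k
    nlinarith [mul_lt_mul_of_pos_left h6 h7]
  -- the test points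
  let p : (k : ℕ) → Y m (e k) := fun k m => lam k m / 2 + (if m = j then t else 0)
  have hp : ∀ l, Tendsto (fun k => p k l) U
      (𝓝 ((Pi.single i 2 : Fin (m + 2) → ℝ) l / 2 + (if l = j then t else 0))) := by
    intro l
    exact ((hlamx l).div_const 2).add tendsto_const_nhds
  obtain ⟨z, x, hz, hzr, hzx, hx⟩ := B p _ hp
  have hkey : ∀ (k : ℕ) (y : Y m (e k)), 2 - e k * η ≤ |lam k i| →
      (∀ b : Fin (m + 2), b ≠ i → |lam k b| < η) → |y i| = |lam k i| / 2 →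
      (t - η / 2 ≤ |y j|) → ¬ ‖y‖ ≤ r k := by
    intro k y h1 h2 h3 h4 h5
    have h6 := le_norm y i j hij
    have h9 := ep_pos k
    have h10 := mul_le_mul_of_nonneg_left h4 h9.le
    have h11 := hr k
    rw [h3] at h6
    have h12 : e k * c < e k * (t - η) := mul_lt_mul_of_pos_left htc h9
    nlinarith
  have hzne : ∀ᶠ k in (U : Filter ℕ), z k ≠ 0 := by
    filter_upwards [hC, hC2] with k h1 h2 h0
    have h3 := hzr k
    rw [h0, sub_zero] at h3
    refine hkey k (p k) h1 h2 ?_ ?_ h3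
    · have h5 : p k i = lam k i / 2 := by
        show lam k i / 2 + (if i = j then t else 0) = _
        rw [if_neg hij, add_zero]
      rw [h5, abs_div, abs_two]
    · have h6 : p k j = lam k j / 2 + t := by
        show lam k j / 2 + (if j = j then t else 0) = _
        rw [if_pos rfl]
      rw [h6]
      have h7 := abs_lt.1 (h2 j (Ne.symm hij))
      refine le_trans ?_ (le_abs_self _)
      linarith
  have hzne2 : ∀ᶠ k in (U : Filter ℕ), z k - lam k ≠ 0 := by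
    filter_upwards [hC, hC2] with k h1 h2 h0
    have h3 := hzr k
    rw [sub_eq_zero.1 h0] at h3
    refine hkey k (p k - lam k) h1 h2 ?_ ?_ h3
    · have h5 : (p k - lam k : Y m (e k)) i = -(lam k i / 2) := by
        show (lam k i / 2 + (if i = j then t else 0)) - lam k i = _
        rw [if_neg hij, add_zero]
        ring
      rw [h5, abs_neg, abs_div, abs_two]
    · have h6 : (p k - lam k : Y m (e k)) j = -(lam k j / 2) + t := by
        show (lam k j / 2 + (if j = j then t else 0)) - lam k j = _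
        rw [if_pos rfl]
        ring
      rw [h6]
      have h7 := abs_lt.1 (h2 j (Ne.symm hij))
      refine le_trans ?_ (le_abs_self _)
      linarith
  obtain ⟨l, hl⟩ := A z x hz hzx hzne
  obtain ⟨l', hl'⟩ := A (fun k => z k - lam k) (fun l => x l - (Pi.single i 2 : Fin (m + 2) → ℝ) l)
    (fun k => (P k).sub_mem (hz k) (hlam k)) (fun l => (hzx l).sub (hlamx l)) hzne2
  have hxi := hx i
  rw [Pi.single_eq_same, if_neg hij] at hxi
  have hxj := hx j
  rw [Pi.single_eq_of_ne (Ne.symm hij), if_pos rfl] at hxj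
  have hxo : ∀ b, b ≠ i → b ≠ j → |x b| ≤ 1 := by
    intro b hb1 hb2
    have := hx b
    rw [Pi.single_eq_of_ne hb1, if_neg hb2] at this
    have h2 : (0 : ℝ) / 2 + 0 - x b = -x b := by ring
    rwa [h2, abs_neg] at this
  have hxi2 := abs_le.1 hxi
  have hxj2 := abs_le.1 hxj
  have hl2 : l = i := by
    by_contra hmi
    by_cases hmj : l = j
    · subst hmj
      rcases abs_cases (x l) with h | h <;> linarith [h.1, h.2, hxj2.1, hxj2.2]
    · linarith [hxo l hmi hmj]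
  subst hl2
  have hxi3 : x l = 2 := by
    rcases abs_cases (x l) with h | h <;> linarith [h.1, h.2, hxi2.1, hxi2.2]
  by_cases h1 : l' = l
  · subst h1
    rw [Pi.single_eq_same, hxi3] at hl'
    norm_num at hl'
  · rw [Pi.single_eq_of_ne h1, sub_zero] at hl'
    by_cases h2 : l' = j
    · subst h2
      rcases abs_cases (x l') with h | h <;> linarith [h.1, h.2, hxj2.1, hxj2.2]
    · linarith [hxo l' h1 h2]

end Pool.Agent.Y505.KP
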